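import Pool.Agent.helper530_ap.Core

/-!
# MP_bcda77_nt: first occurrences of powers of two as least deficient multipliers
-/

namespace Pool.Agent.Results.MP_bcda77_nt.FirstOccurrence

/-- The sum of the positive divisors of `m`. -/
def sigma (m : ℕ) : ℕ := ∑ d ∈ m.divisors, d

/-- The least deficient positive integer `k` for which `k * n` is non-deficient. -/
noncomputable def a (n : ℕ) : ℕ :=
  sInf {k : ℕ | 1 ≤ k ∧ sigma k < 2 * k ∧ 2 * (k * n) ≤ sigma (k * n)}

/-- The smallest prime larger than `2 ^ m`. -/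
noncomputable def p (m : ℕ) : ℕ := sInf {q : ℕ | q.Prime ∧ 2 ^ m < q}

theorem p_mem (m : ℕ) : (p m).Prime ∧ 2 ^ m < p m := by
  have h : ∃ q, q.Prime ∧ 2 ^ m < q := by
    obtain ⟨q, h1, h2⟩ := Nat.exists_infinite_primes (2 ^ m + 1)
    exact ⟨q, h2, h1⟩
  exact Nat.sInf_mem (s := {q : ℕ | q.Prime ∧ 2 ^ m < q}) h

theorem p_le {m q : ℕ} (h1 : q.Prime) (h2 : 2 ^ m < q) : p m ≤ q :=
  Nat.sInf_le (s := {q : ℕ | q.Prime ∧ 2 ^ m < q}) ⟨h1, h2⟩

theorem p_lt {m : ℕ} (hm : 1 ≤ m) : p m < 2 * 2 ^ m := by
  obtain ⟨q, h1, h2, h3⟩ := Nat.exists_prime_lt_and_le_two_mul (2 ^ m) (by positivity)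
  have h4 := p_le h1 h2
  have h5 := (p_mem m).1
  rcases Nat.lt_or_ge (p m) (2 * 2 ^ m) with h | h
  · exact h
  · have h6 : p m = 2 * 2 ^ m := by omega
    exfalso
    rw [h6] at h5
    have h7 : 2 ^ m ≠ 1 := by
      have := Nat.one_lt_two_pow (n := m) (by omega)
      omega
    exact Nat.not_prime_mul (by norm_num) h7 h5

open H530AP in
theorem odd_composite {n : ℕ} (hn : 2 ≤ n) (h2 : ¬ 2 ∣ n) (hp : ¬ n.Prime) : n + 4 ≤ sg n := by
  have hq := Nat.minFac_prime (show n ≠ 1 by omega)
  obtain ⟨c, hc⟩ := Nat.minFac_dvd n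
  set q := n.minFac with hqdef
  have hq2 : q ≠ 2 := by
    intro h
    rw [h] at hc
    exact h2 ⟨c, hc⟩
  have hq3 : 3 ≤ q := by
    have := hq.two_le
    omega
  have hc1 : c ≠ 1 := by
    rintro rfl
    rw [mul_one] at hc
    exact hp (hc ▸ hq)
  have hc0 : c ≠ 0 := by
    rintro rfl
    omega
  have hc2 : c ≠ 2 := by
    rintro rfl
    exact h2 ⟨q, by rw [mul_comm]; exact hc⟩
  have hcn : c ∈ n.divisors := Nat.mem_divisors.2 ⟨⟨q, by rw [mul_comm]; exact hc⟩, by omega⟩
  have hcn' : c < n := by
    rw [hc]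
    nlinarith
  have hsub : ({n, c, 1} : Finset ℕ) ⊆ n.divisors := by
    intro x hx
    simp only [Finset.mem_insert, Finset.mem_singleton] at hx
    rcases hx with rfl | rfl | rfl
    · exact Nat.mem_divisors_self _ (by omega)
    · exact hcn
    · exact Nat.one_mem_divisors.2 (by omega)
  have h3 := Finset.sum_le_sum_of_subset (f := fun d => d) hsub
  rw [Finset.sum_insert, Finset.sum_insert, Finset.sum_singleton] at h3
  · unfold sg
    omega
  · simp only [Finset.mem_singleton]
    omega
  · simp only [Finset.mem_insert, Finset.mem_singleton]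
    omega

theorem result (m : ℕ) (hm : 1 ≤ m) :
    (∀ n, 2 ≤ n → a n = 2 ^ m → p m ≤ n) ∧
      (a (p m) = 2 ^ m ↔ ∀ k, sigma k + 1 = 2 * k → p m < 2 * k → 2 ^ m ≤ k) := by
  have ha : ∀ n, a n = H530AP.a n := fun _ => rfl
  have hs : ∀ n, sigma n = H530AP.sg n := fun _ => rfl
  simp only [ha, hs]
  obtain ⟨hpp, hgt⟩ := p_mem m
  have hlt := p_lt hm
  have hT2 : 2 ≤ 2 ^ m := by
    have := Nat.one_lt_two_pow (n := m) (by omega)
    omega
  have hpow : 2 ^ (m - 1 + 1) = 2 ^ m := by
    congr 1
    omega
  constructor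
  · intro n hn han
    by_contra hcon
    push Not at hcon
    by_cases h2 : 2 ∣ n
    · -- even
      have h1 : H530AP.a n ≤ 3 := by
        rcases H530AP.even_P hn h2 with h | h
        · exact (H530AP.a_le h).trans (by norm_num)
        · exact H530AP.a_le h
      rw [han] at h1
      have hm1 : m = 1 := by
        by_contra hne
        have : 2 ^ 2 ≤ 2 ^ m := Nat.pow_le_pow_right (by norm_num) (by omega)
        omega
      subst hm1
      have hn2 : n = 2 := by omega
      subst hn2
      have h3 := (H530AP.P_a (n := 2) le_rfl).2.2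
      rw [han] at h3
      exact absurd h3 (by decide)
    · have hnot : ¬ H530AP.P n (2 ^ (m - 1)) := by
        intro h
        have h1 := H530AP.a_le h
        rw [han] at h1
        have h3 : 2 ^ (m - 1) * 2 = 2 ^ m := by
          rw [← pow_succ, hpow]
        have h4 : 0 < 2 ^ (m - 1) := by positivity
        omega
      rw [H530AP.P_two_pow h2, hpow] at hnot
      apply hnot
      by_cases hprime : n.Prime
      · have h1 : n ≤ 2 ^ m := by
          by_contra h
          have := p_le hprime (by omega : 2 ^ m < n)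
          omega
        rw [H530AP.sg_prime hprime]
        have h3 : n ≠ 2 ^ m := by
          intro h
          apply h2
          rw [h]
          exact dvd_pow_self 2 (by omega)
        have e : 2 ^ m * (n + 1) = 2 ^ m * n + 2 ^ m := by ring
        omega
      · have h1 := odd_composite hn h2 hprime
        obtain ⟨c, hc⟩ := Nat.exists_eq_add_of_le h1
        rw [hc]
        have e : 2 ^ m * (n + 4 + c) = 2 ^ m * n + 4 * 2 ^ m + 2 ^ m * c := by ring
        have h3 : c * 1 ≤ c * 2 ^ m := Nat.mul_le_mul_left _ (by omega)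
        have h4 : c * 2 ^ m = 2 ^ m * c := by ring
        omega
  · -- the value at `p m`
    have hp2 : ¬ 2 ∣ p m := by
      intro h
      have := (Nat.prime_dvd_prime_iff_eq Nat.prime_two hpp).1 h
      omega
    have hsp := H530AP.sg_prime hpp
    have hPT : H530AP.P (p m) (2 ^ m) := by
      rw [H530AP.P_two_pow hp2, hsp]
      have e : 2 ^ (m + 1) * (p m + 1) = 2 ^ (m + 1) * p m + 2 * 2 ^ m := by ring
      omega
    have hT : 2 ^ m * H530AP.sg (p m) < 2 ^ m * p m + H530AP.sg (p m) := by
      rw [hsp]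
      have e : 2 ^ m * (p m + 1) = 2 ^ m * p m + 2 ^ m := by ring
      omega
    constructor
    · intro haT k hk1 hk2
      by_contra hk3
      push Not at hk3
      have hk0 : k ≠ 0 := by
        rintro rfl
        omega
      have hcop : Nat.Coprime k (p m) := by
        rw [Nat.coprime_comm, Nat.Prime.coprime_iff_not_dvd hpp]
        intro hd
        have := Nat.le_of_dvd (by omega) hd
        omega
      have hP : H530AP.P (p m) k := by
        refine ⟨by omega, by omega, ?_⟩
        rw [H530AP.sg_coprime hcop, hsp]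
        have h3 : H530AP.sg k = 2 * k - 1 := by omega
        obtain ⟨j, rfl⟩ := Nat.exists_eq_add_of_le (show 1 ≤ k by omega)
        have h4 : H530AP.sg (1 + j) = 1 + 2 * j := by omega
        rw [h4]
        have e1 : (1 + 2 * j) * (p m + 1) = p m + 2 * (j * p m) + 1 + 2 * j := by ring
        have e2 : 2 * ((1 + j) * p m) = 2 * p m + 2 * (j * p m) := by ring
        omega
      have := H530AP.a_le hP
      omega
    · intro h
      apply H530AP.a_eq_of hPT
      intro k hk
      by_contra hlt2
      push Not at hlt2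
      have h1 := H530AP.key hT hk.2.1 hlt2 hk.2.2
      have hcop : Nat.Coprime k (p m) := by
        rw [Nat.coprime_comm, Nat.Prime.coprime_iff_not_dvd hpp]
        intro hd
        have := Nat.le_of_dvd hk.1 hd
        omega
      have h3 := hk.2.2
      rw [H530AP.sg_coprime hcop, hsp] at h3
      have hk1 := hk.1
      obtain ⟨j, rfl⟩ := Nat.exists_eq_add_of_le hk1
      have h4 : H530AP.sg (1 + j) = 1 + 2 * j := by omega
      rw [h4] at h3
      have e1 : (1 + 2 * j) * (p m + 1) = p m + 2 * (j * p m) + 1 + 2 * j := by ring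
      have e2 : 2 * ((1 + j) * p m) = 2 * p m + 2 * (j * p m) := by ring
      have h5 := h (1 + j) h1 (by omega)
      omega

end Pool.Agent.Results.MP_bcda77_nt.FirstOccurrence
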